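import Pool.Agent.H303.DEG.Glob
import Pool.Agent.H303.DEE.Leray
import Pool.Agent.H303.DEE.FGlue
import Pool.Agent.H303.DEE.FH1
import Pool.Agent.H303.DEE.FH2
import Pool.Agent.H303.DEE.FH3
import Pool.Agent.H303.DEE.FH4
import Pool.Agent.H303.DEE.FH5
import Pool.Agent.H303.DEE.FH6a
import Pool.Agent.H303.DEE.FH6b
import Pool.Agent.H303.DEE.FH6
import Pool.Agent.H303.DEE.FH7
import Pool.Agent.H303.DEE.FH8a
import Pool.Agent.H303.DEE.FH8
import Pool.Agent.H303.DEE.FH9a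
import Pool.Agent.H303.DEE.FH9
import Pool.Agent.H303.DEE.FH10
import Pool.Agent.H303.DEE.FP1
import Pool.Agent.H303.DEE.FP2
import Pool.Agent.H303.DEE.FP3
import Pool.Agent.H303.DEE.FP4
import Pool.Agent.H303.DEE.FP5
import Pool.Agent.H303.DEE.FP6
import Pool.Agent.H303.DEE.FP7
import Pool.Agent.H303.DEE.R1
import Pool.Agent.H303.DEE.R2
import Pool.Agent.H303.DEE.R3
import Pool.Agent.H303.DEE.J1
import Pool.Agent.H303.DEE.J2
import Pool.Agent.H303.DEE.J3
import Pool.Agent.H303.DEE.J3d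
import Pool.Agent.H303.DEE.J4a
import Pool.Agent.H303.DEE.J4
import Pool.Agent.H303.DEE.J5
import Pool.Agent.H303.DEE.J6
import Pool.Agent.H303.DEE.J7a
import Pool.Agent.H303.DEE.J7b
import Pool.Agent.H303.DEE.J8ab
import Pool.Agent.H303.DEE.J9ab
import Pool.Agent.H303.DEE.J9cd
import Pool.Agent.H303.DEE.J9m
import Pool.Agent.H303.DEE.J9
import Pool.Agent.H303.DEE.J10
import Pool.Agent.H303.DEE.J11
import Pool.Agent.H303.DEE.J12
import Pool.Agent.H303.DEE.J13

/-!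
# Uniqueness of all weak solutions: Navier-Stokes equations with an odd dispersion, `n ≥ 5`

Let `n ≥ 5` be odd, `ν > 0` and `α₁, α₂, α₃` nonzero real numbers, of any size and sign. We consider
the three-dimensional periodic Navier-Stokes equations with the additional skew-adjoint term
`∑_j α_j ∂_j^n u`,

  `∂ₜ u + (u · ∇) u + ∇ p = ν Δ u + ∑_j α_j ∂_j^n u`,  `div u = 0`.

For all initial values in `L²_σ` and all `T` there is exactly one weak Leray solution
(`IsLeray`) on `[0, T]`, and every weak solution in the energy class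
`L^∞(0, T; L²) ∩ L²(0, T; H¹)` (`IsWeak`; no energy inequality is assumed) with this initial value
is equal to it.

The proof works with the Fourier coefficients of the difference of two solutions. The resonance
function of a triad with the largest frequency `L` is at least `|L| ^ 3` except for few triads (at
most `C M ^ 2` frequencies of length at most `M` for each `L`:
`Pool.Agent.H226.DE.few_diag`, part of the theorem `MP_6bf1e5_an.OddDispersion`). The contribution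
of these few to the energy of the difference is estimated by the dissipation, and that of the others
after integration by parts in time; the high frequencies of the flux tend to zero. Existence is
proved by compactness, as in Leray's theorem.
-/

open MeasureTheory Set Filter Topology
open scoped ContDiff ENNReal
open Pool.Agent.H303.DEE (V Q Periodic partialD Smooth Test)

namespace Pool.Agent.Results.MP_d762fe_an.WeakUniqueness

/-! ### Definitions (`V`, `Q`, `Periodic`, `partialD`, `Smooth`, `Test` are in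
`Pool.Agent.H303.DEE.Defs`) -/

/-- `∫_Q |v|²`. -/
noncomputable def energy (v : V → V) : ℝ := ∫ x in Q, ∑ i, v x i ^ 2

/-- `∫_0^t ∫_Q |G|²`. -/
noncomputable def dissipation (G : ℝ → V → Fin 3 → Fin 3 → ℝ) (t : ℝ) : ℝ :=
  ∫ s in (0 : ℝ)..t, ∫ x in Q, ∑ i, ∑ j, G s x i j ^ 2

/-- `∫_Q v · w`. -/
noncomputable def inner (v w : V → V) : ℝ := ∫ x in Q, ∑ i, v x i * w x i

/-- The divergence of `v` is zero (in the sense of periodic distributions). -/
def DivFree (v : V → V) : Prop := ∀ ψ : V → ℝ, ContDiff ℝ ∞ ψ → Periodic ψ →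
  ∫ x in Q, ∑ j, v x j * partialD 1 j ψ x = 0

/-- `g i j = ∂_j v_i` (in the sense of periodic distributions). -/
def WeakGrad (v : V → V) (g : V → Fin 3 → Fin 3 → ℝ) : Prop := ∀ ψ : V → ℝ, ContDiff ℝ ∞ ψ →
  Periodic ψ → ∀ i j, ∫ x in Q, v x i * partialD 1 j ψ x = -∫ x in Q, g x i j * ψ x

/-- The integrand of the weak formulation, for the test field `φ`, at the time `s`:
`u · ∂ₜφ + (u ⊗ u) : ∇φ - ν G : ∇φ - ∑_j α_j u · ∂_j^n φ` (`n` is odd). -/
noncomputable def integrand (n : ℕ) (ν : ℝ) (α : Fin 3 → ℝ) (u : ℝ → V → V)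
    (G : ℝ → V → Fin 3 → Fin 3 → ℝ) (φ : ℝ → V → V) (s : ℝ) (x : V) : ℝ :=
  (∑ i, u s x i * deriv (fun r => φ r x i) s)
    + (∑ i, ∑ j, u s x i * u s x j * partialD 1 j (fun y => φ s y i) x)
    - ν * (∑ i, ∑ j, G s x i j * partialD 1 j (fun y => φ s y i) x)
    - ∑ i, ∑ j, α j * (u s x i * partialD n j (fun y => φ s y i) x)

/-- `u` is a weak solution in the energy class on `[0, T]` with the initial value `u₀` of
`∂ₜ uᵢ + ∑_j u_j ∂_j uᵢ = ν ∑_j ∂_j² uᵢ + ∑_j α_j ∂_j^n uᵢ - ∂ᵢ p`, `div u = 0` (`n` odd), periodic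
in `x` with the period cell `Q` (only the values in `Q` matter): `u(t) ∈ L²(Q)` for all
`t ∈ [0, T]`, bounded in `L²(Q)` on `[0, T]`, the gradient `G i j = ∂_j u_i` is in
`L²((0, T) × Q)`, the divergence is zero, and the equation holds in the sense of distributions
against test fields with divergence zero, between the times `0` and `t`, for all `t ∈ [0, T]` (in
particular `u` is weakly continuous in time). No energy inequality is assumed. -/
structure IsWeak (n : ℕ) (ν : ℝ) (α : Fin 3 → ℝ) (T : ℝ) (u₀ : V → V) (u : ℝ → V → V)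
    (G : ℝ → V → Fin 3 → Fin 3 → ℝ) : Prop where
  meas_u : Measurable fun z : ℝ × V => u z.1 z.2
  meas_G : Measurable fun z : ℝ × V => G z.1 z.2
  l2_u : ∀ t ∈ Icc 0 T, ∀ i, MemLp (fun x => u t x i) 2 (volume.restrict Q)
  bdd : ∃ E : ℝ, ∀ t ∈ Icc 0 T, energy (u t) ≤ E
  l2_G : ∀ i j, MemLp (fun z : ℝ × V => G z.1 z.2 i j) 2 (volume.restrict (Icc 0 T ×ˢ Q))
  divfree : ∀ t ∈ Icc 0 T, DivFree (u t)
  grad : ∀ᵐ t ∂(volume.restrict (Icc 0 T)), WeakGrad (u t) (G t)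
  weak : ∀ φ, Test φ → ∀ t ∈ Icc 0 T, inner (u t) (φ t) - inner u₀ (φ 0)
    = ∫ s in (0 : ℝ)..t, ∫ x in Q, integrand n ν α u G φ s x

/-- `u` is a weak Leray solution on `[0, T]`: a weak solution which satisfies the energy inequality
at all times `t ∈ [0, T]`. -/
def IsLeray (n : ℕ) (ν : ℝ) (α : Fin 3 → ℝ) (T : ℝ) (u₀ : V → V) (u : ℝ → V → V)
    (G : ℝ → V → Fin 3 → Fin 3 → ℝ) : Prop :=
  IsWeak n ν α T u₀ u G ∧
    ∀ t ∈ Icc 0 T, (1 / 2) * energy (u t) + ν * dissipation G t ≤ (1 / 2) * energy u₀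

/-- `f` is in the space `L²_σ`: it is square integrable in `Q` and a limit in `L²(Q)³` of smooth
periodic fields with divergence zero. -/
def L2sigma (f : V → V) : Prop := (∀ i, MemLp (fun x => f x i) 2 (volume.restrict Q)) ∧
  ∀ ε : ℝ, 0 < ε → ∃ v : V → V, Smooth v ∧ energy (f - v) ≤ ε

/-! ### The definitions above and those of the files with the proofs -/

lemma weak_iff {n : ℕ} {ν : ℝ} {α : Fin 3 → ℝ} {T : ℝ} {u₀ : V → V} {u : ℝ → V → V}
    {G : ℝ → V → Fin 3 → Fin 3 → ℝ} :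
    IsWeak n ν α T u₀ u G ↔ Pool.Agent.H303.DEE.IsWeak n ν α T u₀ u G :=
  ⟨fun h => ⟨h.meas_u, h.meas_G, h.l2_u, h.bdd, h.l2_G, h.divfree, h.grad, h.weak⟩,
    fun h => ⟨h.meas_u, h.meas_G, h.l2_u, h.bdd, h.l2_G, h.divfree, h.grad, h.weak⟩⟩

/-- Leray-Hopf solutions are weak solutions in the energy class. -/
lemma weak_of_lh {n : ℕ} {ν : ℝ} (hν : 0 < ν) {α : Fin 3 → ℝ} {T : ℝ} {u₀ : V → V}
    {u : ℝ → V → V} {G : ℝ → V → Fin 3 → Fin 3 → ℝ}
    (h : Pool.Agent.H303.DEE.IsLerayHopf n ν α T u₀ u G) : IsWeak n ν α T u₀ u G := by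
  refine ⟨h.meas_u, h.meas_G, h.l2_u, ⟨energy u₀, fun t ht => ?_⟩, h.l2_G, h.divfree, h.grad,
    h.weak⟩
  have h1 := h.energy t ht
  have h2 : 0 ≤ ∫ s in (0 : ℝ)..t, ∫ x in Q, ∑ i, ∑ j, G s x i j ^ 2 :=
    intervalIntegral.integral_nonneg ht.1 fun s _ => integral_nonneg fun x =>
      Finset.sum_nonneg fun i _ => Finset.sum_nonneg fun j _ => sq_nonneg _
  have h3 : energy (u t) = ∫ x in Q, ∑ i, u t x i ^ 2 := rfl
  have h4 : energy u₀ = ∫ x in Q, ∑ i, u₀ x i ^ 2 := rfl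
  rw [h3, h4]
  nlinarith [mul_nonneg hν.le h2]

/-- the measure on the cell -/
noncomputable abbrev mQ : Measure V := volume.restrict Q

lemma memLp_V {f : V → V} (h : ∀ i, MemLp (fun x => f x i) 2 mQ) : MemLp f 2 mQ :=
  memLp_pi_iff.2 h

lemma smooth_memLp {v : V → V} (h : Smooth v) (i : Fin 3) : MemLp (fun x => v x i) 2 mQ := by
  have hc : Continuous fun x => v x i := (contDiff_pi.1 h.smooth i).continuous
  refine (memLp_two_iff_integrable_sq hc.aestronglyMeasurable).2 ?_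
  exact (hc.pow 2).continuousOn.integrableOn_compact isCompact_Icc

lemma norm_sq_le_energy {f : V → V} (h : ∀ i, MemLp (fun x => f x i) 2 mQ) :
    ‖(memLp_V h).toLp f‖ ^ 2 ≤ energy f := by
  have hV := memLp_V h
  have h2 : ∀ i, Integrable (fun x => f x i ^ 2) mQ := fun i => (h i).integrable_sq
  have h1 : ‖hV.toLp f‖ ^ 2 = ∫ x, ‖f x‖ ^ 2 ∂mQ := by
    rw [Lp.norm_toLp, hV.eLpNorm_eq_integral_rpow_norm (by norm_num) (by norm_num)]
    have h3 : 0 ≤ ∫ x, ‖f x‖ ^ 2 ∂mQ := integral_nonneg fun x => by positivity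
    simp only [ENNReal.toReal_ofNat, Real.rpow_ofNat]
    rw [ENNReal.toReal_ofReal (by positivity), ← Real.rpow_natCast, ← Real.rpow_mul h3]
    norm_num
  rw [h1]
  refine integral_mono ?_ (integrable_finsetSum _ fun i _ => h2 i) fun x => ?_
  · exact (memLp_two_iff_integrable_sq_norm hV.1).1 hV
  · have h4 : ‖f x‖ ≤ Real.sqrt (∑ i, f x i ^ 2) := by
      rw [pi_norm_le_iff_of_nonneg (Real.sqrt_nonneg _)]
      intro i
      refine Real.le_sqrt_of_sq_le ?_
      rw [Real.norm_eq_abs, sq_abs]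
      exact Finset.single_le_sum (f := fun i => f x i ^ 2) (fun j _ => sq_nonneg _)
        (Finset.mem_univ i)
    have h5 : 0 ≤ ∑ i, f x i ^ 2 := Finset.sum_nonneg fun i _ => sq_nonneg _
    calc ‖f x‖ ^ 2 ≤ Real.sqrt (∑ i, f x i ^ 2) ^ 2 := by gcongr
      _ = _ := Real.sq_sqrt h5

lemma norm_toLp_sub {f g : V → V} (hf : ∀ i, MemLp (fun x => f x i) 2 mQ)
    (hg : ∀ i, MemLp (fun x => g x i) 2 mQ) {r : ℝ} (hr : 0 ≤ r) (h : energy (g - f) < r ^ 2) :
    ‖(memLp_V hg).toLp g - (memLp_V hf).toLp f‖ < r := by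
  have hgf : ∀ i, MemLp (fun x => (g - f) x i) 2 mQ := fun i => (hg i).sub (hf i)
  have e : (memLp_V hg).toLp g - (memLp_V hf).toLp f = (memLp_V hgf).toLp (g - f) :=
    (MemLp.toLp_sub _ _).symm
  rw [e]
  exact lt_of_pow_lt_pow_left₀ 2 hr ((norm_sq_le_energy hgf).trans_lt h)

lemma mem_L2s {f : V → V} (h : L2sigma f) :
    (memLp_V h.1).toLp f ∈ Pool.Agent.H303.DEE.L2s := by
  refine Metric.mem_closure_iff.2 fun ε hε => ?_
  obtain ⟨v, hv, hd⟩ := h.2 (ε ^ 2 / 2) (by positivity)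
  refine ⟨(memLp_V (smooth_memLp hv)).toLp v, ⟨v, hv, MemLp.coeFn_toLp _⟩, ?_⟩
  rw [dist_eq_norm]
  refine norm_toLp_sub (smooth_memLp hv) h.1 hε.le (hd.trans_lt ?_)
  have : 0 < ε ^ 2 := by positivity
  linarith

/-- the class of `f` -/
noncomputable def cls (f : V → V) (h : L2sigma f) : Pool.Agent.H303.DEE.L2s :=
  ⟨(memLp_V h.1).toLp f, mem_L2s h⟩

lemma energy_congr {f g : V → V} (h : f =ᵐ[mQ] g) : energy f = energy g := by
  refine integral_congr_ae ?_
  filter_upwards [h] with x hx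
  rw [hx]

lemma inner_congr {f g : V → V} (h : f =ᵐ[mQ] g) (w : V → V) : inner f w = inner g w := by
  refine integral_congr_ae ?_
  filter_upwards [h] with x hx
  rw [hx]

lemma weak_congr {n : ℕ} {ν : ℝ} {α : Fin 3 → ℝ} {T : ℝ} {f g : V → V} {u : ℝ → V → V}
    {G : ℝ → V → Fin 3 → Fin 3 → ℝ} (h : f =ᵐ[mQ] g) (hu : IsWeak n ν α T f u G) :
    IsWeak n ν α T g u G :=
  ⟨hu.meas_u, hu.meas_G, hu.l2_u, hu.bdd, hu.l2_G, hu.divfree, hu.grad, fun φ hφ t ht => by
    rw [← inner_congr h]; exact hu.weak φ hφ t ht⟩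

lemma glob {n : ℕ} (hn : Odd n) (h3 : 3 ≤ n) {ν : ℝ} (hν : 0 < ν) {α : Fin 3 → ℝ}
    (hα : ∀ j, α j ≠ 0) : Pool.Agent.H303.DEE.Glob n ν α := by
  intro u₀ h
  obtain ⟨v, p, h1, h2, -⟩ := Pool.Agent.H303.DEE.Odd.result hn h3 hν hα h.smooth h.per h.divfree
  exact ⟨v, p, ⟨h1.smooth_u, h1.smooth_p, h1.per_u, h1.per_p, h1.divfree, h1.momentum⟩, h2⟩

open Pool.Agent.H303.DEE Pool.Agent.H303.DEE.F in
lemma j13' : J13 := by
  have k5 : P5 := p5 p2 p3 p4
  have k6 : P6 := p6 p1 p3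
  have k6a : H6 := h6 (h6b h6a)
  have k8 : H8 := h8 h8a
  have m9 : J9m := j9m
  have l4 : J4 := j4 (j4a j3 h4 h5 k6a h7 k8)
  have l9 : J9 := j9 j3d (j9a (j5 h6a)) j9b (j9c j6) (j9d (j7a h8a) j7b j8a j8b) m9
  exact j13 (j12 (j10 j1 j2 l4 l9 m9) j11 m9) r1 p1 (p7 p1 p4 k5 k6) (j13a r2)

/-- **Uniqueness of weak solutions of the periodic Navier-Stokes equations with the dispersion
`∑_j α_j ∂_j^n u`**, for every odd `n ≥ 5`, every viscosity `ν > 0`, all nonzero `α₁, α₂, α₃`, all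
`T` and all initial values in `L²_σ`: there is a weak Leray solution, and any two weak solutions in
the energy class are equal. -/
theorem result {n : ℕ} (hn : Odd n) (h5 : 5 ≤ n) {ν : ℝ} (hν : 0 < ν) {α : Fin 3 → ℝ}
    (hα : ∀ j, α j ≠ 0) (T : ℝ) {u₀ : V → V} (hu₀ : L2sigma u₀) :
    (∃ (u : ℝ → V → V) (G : ℝ → V → Fin 3 → Fin 3 → ℝ), IsLeray n ν α T u₀ u G) ∧
    ∀ (u u' : ℝ → V → V) (G G' : ℝ → V → Fin 3 → Fin 3 → ℝ), IsWeak n ν α T u₀ u G →
      IsWeak n ν α T u₀ u' G' → ∀ t ∈ Icc 0 T, u' t =ᵐ[volume.restrict Q] u t := by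
  have he : (memLp_V hu₀.1).toLp u₀ =ᵐ[mQ] u₀ := MemLp.coeFn_toLp _
  refine ⟨?_, fun u u' G G' hu hu' t ht => ?_⟩
  · obtain ⟨u, G, h⟩ := Pool.Agent.H303.DEE.leray n ν α hν hn
      (glob hn (le_trans (by norm_num) h5) hν hα) T (cls u₀ hu₀)
    refine ⟨u, G, weak_congr he (weak_of_lh hν h.1), fun t ht => ?_⟩
    rw [← energy_congr he]
    exact h.1.energy t ht
  · obtain ⟨C, hC, hF⟩ := Pool.Agent.H303.DEE.F.few_gg hn h5 hα
    exact j13' n ν α C hν hn hC hF T (cls u₀ hu₀) u u' G G' (weak_iff.1 (weak_congr he.symm hu))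
      (weak_iff.1 (weak_congr he.symm hu')) t ht

end Pool.Agent.Results.MP_d762fe_an.WeakUniqueness
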